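import Pool.Agent.H387.QT.Final

/-!
# Reduced decompositions of `w₀` and one-sided quantum tangent spaces

For every `n`, every real `q > 0`, `q ≠ 1` and every reduced decomposition `w` of the longest
element of `S_{n+1}` we decide when the span `nplus` of Lusztig's root vectors is a right tangent
space, and when it is a left one.

The literal left condition inside `U` never holds, because `Δ(E_i) = E_i ⊗ K_i + 1 ⊗ E_i` has the
second leg `K_i`.  The left condition is therefore decided in its two meaningful forms: for the
twisted root vectors `E_β K_β⁻¹` inside `U` (`nplusTw`), and for the root vectors themselves as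
functionals on the full quantum flag manifold, that is modulo the left ideal `J` generated by the
`K_i - 1` (`FlagLeft`).
-/

namespace Pool.Agent.Results.MP_27b52d_al.TangentSpaces

open Pool.Agent.H387.QT

theorem result (n : ℕ) (q : ℝ) (h0 : 0 < q) (h1 : q ≠ 1) (w : List (Fin n))
    (hw : IsReducedW0 w) :
    -- right tangent spaces, inside `U` and on the flag manifold
    (IsRightTangent (nru_real h0 h1) (nplus (nru_real h0 h1) w) ↔ RightPattern w) ∧
    (FlagRight (nru_real h0 h1) (nplus (nru_real h0 h1) w) ↔ RightPattern w) ∧
    -- left tangent spaces, on the flag manifold and inside `U`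
    (FlagLeft (nru_real h0 h1) (nplus (nru_real h0 h1) w) ↔ LeftPattern w) ∧
    (IsLeftTangent (nru_real h0 h1) (nplusTw (nru_real h0 h1) w) ↔ LeftPattern w) ∧
    (1 ≤ n → ¬ IsLeftTangent (nru_real h0 h1) (nplus (nru_real h0 h1) w)) ∧
    -- the two patterns in terms of linear orders on the gaps
    (RightPattern w ↔ ∃ p : Fin n → ℕ, Function.Injective p ∧
      ∀ a b c : Fin (n + 1), a < b → b < c → (sign w a b c = true ↔ MaxLT p a b c)) ∧
    (LeftPattern w ↔ ∃ p : Fin n → ℕ, Function.Injective p ∧
      ∀ a b c : Fin (n + 1), a < b → b < c → (sign w a b c = true ↔ MaxGT p a b c)) ∧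
    -- both patterns together
    ((RightPattern w ∧ LeftPattern w) ↔ ∀ a b c a' b' c' : Fin (n + 1), a < b → b < c →
      a' < b' → b' < c' → sign w a b c = sign w a' b' c') := by
  have hq := nru_real h0 h1
  have hw' := hw.w0
  refine ⟨?_, ?_, ?_, ?_, ?_, rightPattern_prior w, leftPattern_prior w, two_sided_iff w⟩
  · rw [nplus_eq _ hw', rightPattern_iff]
    exact (right_iff _ _).1
  · rw [nplus_eq _ hw', rightPattern_iff]
    exact (right_iff _ _).2
  · rw [nplus_eq _ hw', leftPattern_iff]
    exact flagLeft_iff _ _
  · rw [nplusTw_eq _ hw', leftPattern_iff]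
    exact left_iff _ _
  · intro hn
    rw [nplus_eq _ hw']
    exact not_left _ hn _

end Pool.Agent.Results.MP_27b52d_al.TangentSpaces
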